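import Pool.Agent.H642R2.SRPoly
import Pool.Agent.H642R2.SRMem
import Pool.Agent.H642R2.SRTwo

/-!
Deciding whether a given set of matchings is rationalizable, i.e. whether some stable roommates
instance makes all of them stable, is NP-complete, even for three pairwise disjoint perfect
matchings; two perfect matchings are always rationalizable.
-/

namespace Pool.Agent.Results.MP_3056b9_lc.RationalizableNPC

open Pool.Agent.NPC Pool.Agent.NPC.SR

/-- SR-RATIONALIZABILITY is in NP, and it is NP-hard; moreover every language `L` in NP reduces in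
polynomial time to it by a reduction that produces only inputs consisting of three pairwise
disjoint perfect matchings. Three is the least such number: inputs consisting of two perfect
matchings (disjoint or not) are always rationalizable. -/
theorem result :
    InNPP Rationalizable ∧ NPHardP Rationalizable ∧
    (∀ L : Set (List Bool), InNP L → ∃ f : List Bool → Inst, PolyTime (fun x => bits (f x)) ∧
      (∀ x, ThreeDisjointPerfect (f x)) ∧ ∀ x, x ∈ L ↔ Rationalizable (f x)) ∧
    ∀ I : Inst, I.2.length = 2 →
      (∀ M ∈ I.2, IsMatching (size I) M ∧ ∀ a < size I, ∃ b, Partner M a b) →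
      Rationalizable I := by
  refine ⟨inNPP_rationalizable, hardPr_three.toHardI.toNPHardP, fun L hL => ?_, ?_⟩
  · obtain ⟨f, hf, hpr, hfL⟩ := hardPr_three L hL
    exact ⟨f, PC.toPolyTime hf, hpr, hfL⟩
  · rintro ⟨l, Ms⟩ hlen h
    obtain ⟨M1, M2, rfl⟩ := List.length_eq_two.1 hlen
    obtain ⟨a1, a2⟩ := h M1 (by simp)
    obtain ⟨b1, b2⟩ := h M2 (by simp)
    obtain ⟨P, hP, s1, s2⟩ := two_rationalizable a1 b1 a2 b2
    refine ⟨P, hP, ?_⟩
    intro M hM
    simp only [List.mem_cons, List.not_mem_nil, or_false] at hM
    rcases hM with rfl | rfl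
    · exact s1
    · exact s2

end Pool.Agent.Results.MP_3056b9_lc.RationalizableNPC
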